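import Mathlib
import Pool.Agent.N546.PN.Stm

/-!
# Project PN (helper546), part REALN (helper482): finitely many real boxes
-/

set_option autoImplicit false

namespace Pool.Agent.N482.PN

open Finset Filter Topology
open Pool.Agent.N546.PN

section

variable {ι : Type} {n : ℕ} {e : ι → ℕ}

/-- scaling by a square -/
theorem pt_scale (T : Typ ι e) {a b : (k : ι) → Mon n (e k + 1) → ℝ} {z : ℝ} (hz : z ≠ 0)
    (hab : ∀ k m, b k m = a k m * z ^ 2) {x : Fin (n + 1) → ℝ} (h : Pt T a x) : Pt T b x := by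
  have hv : ∀ k, val (b k) x = val (a k) x * z ^ 2 := by
    intro k
    unfold N546.PN.val
    rw [Finset.sum_mul]
    refine Finset.sum_congr rfl fun m _ => ?_
    rw [hab]
    ring
  refine ⟨fun k => ?_, ?_⟩
  · rw [hv]
    exact mul_ne_zero (h.1 k) (pow_ne_zero _ hz)
  · have h1 : (fun k => val (b k) x) = fun k => val (a k) x * z ^ 2 := funext hv
    rw [h1]
    exact T.sq ℝ _ (fun _ => z) (fun _ => hz) h.2

theorem exists_min {X : Type*} (f : X → ℝ) (t : Finset X) (h : ∀ c ∈ t, 0 < f c) :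
    ∃ δ : ℝ, 0 < δ ∧ ∀ c ∈ t, δ ≤ f c := by
  classical
  induction t using Finset.induction_on with
  | empty => exact ⟨1, one_pos, fun c hc => absurd hc (Finset.notMem_empty c)⟩
  | insert a t _ ih =>
    obtain ⟨δ, hδ, hle⟩ := ih fun c hc => h c (Finset.mem_insert_of_mem hc)
    refine ⟨min δ (f a), lt_min hδ (h a (Finset.mem_insert_self a t)), fun c hc => ?_⟩
    rcases Finset.mem_insert.1 hc with rfl | hc
    · exact min_le_right _ _
    · exact (min_le_left _ _).trans (hle c hc)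

end

theorem realn_ (h1 : S_DEL) (h2 : S_SMR) (h3 : S_CLO ℝ) (h4 : S_OPE ℝ) : S_REALN := by
  classical
  intro n ι _ _ e T ε hε
  obtain ⟨Δ, hΔ0, hΔ⟩ := h1 n ι e
  obtain ⟨η, hη, H1, hH1⟩ := h2 ((k : ι) × Mon n (e k + 1)) Δ hΔ0 ε hε
  obtain ⟨F, hF⟩ : ∃ F : ((k : ι) → Mon n (e k + 1) → ℝ) → ℝ, F = fun c =>
    MvPolynomial.aeval (fun q : (k : ι) × Mon n (e k + 1) => c q.1 q.2) Δ := ⟨_, rfl⟩
  have hFc : Continuous F := by
    rw [hF]
    have h5 : Continuous fun c : (k : ι) → Mon n (e k + 1) → ℝ =>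
        fun q : (k : ι) × Mon n (e k + 1) => c q.1 q.2 :=
      continuous_pi fun q => (continuous_apply q.2).comp (continuous_apply q.1)
    have h6 := (MvPolynomial.continuous_eval (MvPolynomial.map (algebraMap ℤ ℝ) Δ)).comp h5
    have h7 : (fun c : (k : ι) → Mon n (e k + 1) → ℝ =>
        MvPolynomial.aeval (fun q : (k : ι) × Mon n (e k + 1) => c q.1 q.2) Δ) =
        (fun x => MvPolynomial.eval x (MvPolynomial.map (algebraMap ℤ ℝ) Δ)) ∘
          fun c : (k : ι) → Mon n (e k + 1) → ℝ =>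
            fun q : (k : ι) × Mon n (e k + 1) => c q.1 q.2 := by
      funext c
      rw [Function.comp, MvPolynomial.eval_map, MvPolynomial.aeval_def]
    rw [h7]
    exact h6
  -- the compact set
  obtain ⟨A, hA⟩ : ∃ A : Set ((k : ι) → Mon n (e k + 1) → ℝ),
    A = {c | ∃ x : Fin (n + 1) → ℝ, Pt T c x} := ⟨_, rfl⟩
  obtain ⟨K, hK⟩ : ∃ K : Set ((k : ι) → Mon n (e k + 1) → ℝ),
    K = Metric.closedBall 0 1 ∩ (closure A ∩ {c | η ≤ |F c|}) := ⟨_, rfl⟩
  have hKc : IsCompact K := by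
    rw [hK]
    exact (isCompact_closedBall _ _).inter_right
      (isClosed_closure.inter (isClosed_le continuous_const hFc.abs))
  have hex : ∀ c ∈ K, ∃ (x : Fin (n + 1) → ℝ) (δ : ℝ), 0 < δ ∧
      ∀ (c' : (k : ι) → Mon n (e k + 1) → ℝ) (x' : Fin (n + 1) → ℝ),
        (∀ k m, ‖c' k m - c k m‖ < δ) → (∀ i, ‖x' i - x i‖ < δ) → Pt T c' x' := by
    intro c hc
    rw [hK] at hc
    obtain ⟨_, hcA, hcF⟩ := hc
    have hcF' : η ≤ |F c| := hcF
    have hsm : Smo c := by
      by_contra hcon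
      have h5 := hΔ ℝ c hcon
      have h6 : F c = 0 := by
        rw [hF]
        exact h5
      rw [h6, abs_zero] at hcF'
      linarith
    obtain ⟨u, hu, hlim⟩ := mem_closure_iff_seq_limit.1 hcA
    rw [hA] at hu
    obtain ⟨x, hx⟩ := h3 n ι e T u c hlim hu hsm
    obtain ⟨δ, hδ, hδ'⟩ := h4 n ι e T c x hx
    exact ⟨x, δ, hδ, hδ'⟩
  choose! xf df hdf hpf using hex
  obtain ⟨t, htK, htc⟩ := hKc.elim_nhds_subcover (fun c => Metric.ball c (df c))
    (fun c hc => Metric.ball_mem_nhds c (hdf c hc))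
  obtain ⟨δ, hδ, hδt⟩ := exists_min df t fun c hc => hdf c (htK c hc)
  refine ⟨t.card, fun j => xf (t.equivFin.symm j), δ, hδ, max H1 1, fun H hH => ?_⟩
  have hHa : H1 ≤ H := (le_max_left _ _).trans hH
  have hHb : 1 ≤ H := (le_max_right _ _).trans hH
  have hHpos : (0 : ℝ) < H := by exact_mod_cast hHb
  have hcard : Fintype.card ((k : ι) × Mon n (e k + 1)) = sz n e := Fintype.card_sigma
  rw [← hcard]
  refine le_trans ?_ (hH1 H hHa)
  refine Nat.cast_le.2 ?_
  refine Finset.card_le_card_of_injOn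
    (fun (c : (k : ι) → Mon n (e k + 1) → ℤ) (q : (k : ι) × Mon n (e k + 1)) => c q.1 q.2) ?_ ?_
  · intro c hc
    obtain ⟨hcb, ⟨x, hx⟩, hno⟩ := Finset.mem_filter.1 (Finset.mem_coe.1 hc)
    have hcb' : ∀ k m, c k m ∈ Icc (-(H : ℤ)) H := by
      intro k m
      exact Fintype.mem_piFinset.1 (Fintype.mem_piFinset.1 hcb k) m
    refine Finset.mem_coe.2 (Finset.mem_filter.2 ⟨Fintype.mem_piFinset.2 fun q => hcb' q.1 q.2, ?_⟩)
    by_contra hbig
    push Not at hbig
    obtain ⟨c', hc'⟩ : ∃ c' : (k : ι) → Mon n (e k + 1) → ℝ, c' = fun k m => (c k m : ℝ) / H :=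
      ⟨_, rfl⟩
    have hFc' : η ≤ |F c'| := by
      rw [hF, hc']
      exact hbig
    have hdown : ∀ x : Fin (n + 1) → ℝ, Pt T (ic c ℝ) x → Pt T c' x := by
      intro x hx
      refine pt_scale T (z := (Real.sqrt H)⁻¹) (by positivity) (fun k m => ?_) hx
      rw [hc', inv_pow, Real.sq_sqrt hHpos.le]
      rfl
    have hup : ∀ x : Fin (n + 1) → ℝ, Pt T c' x → Pt T (ic c ℝ) x := by
      intro x hx
      refine pt_scale T (z := Real.sqrt H) (by positivity) (fun k m => ?_) hx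
      rw [hc', Real.sq_sqrt hHpos.le]
      show (c k m : ℝ) = (c k m : ℝ) / H * H
      rw [div_mul_cancel₀ _ hHpos.ne']
    have hmem : c' ∈ K := by
      rw [hK]
      refine ⟨?_, subset_closure ?_, hFc'⟩
      · rw [Metric.mem_closedBall, dist_pi_le_iff zero_le_one]
        intro k
        rw [dist_pi_le_iff zero_le_one]
        intro m
        have h5 := Finset.mem_Icc.1 (hcb' k m)
        rw [hc', Real.dist_eq]
        show |(c k m : ℝ) / H - 0| ≤ 1
        rw [sub_zero, abs_div, abs_of_pos hHpos, div_le_one hHpos, abs_le]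
        constructor
        · exact_mod_cast h5.1
        · exact_mod_cast h5.2
      · rw [hA]
        exact ⟨x, hdown x hx⟩
    obtain ⟨c1, hc1, hball⟩ := Set.mem_iUnion₂.1 (htc hmem)
    apply hno
    refine ⟨t.equivFin ⟨c1, hc1⟩, fun x' hx' => hup x' ?_⟩
    have hx' : ∀ i, |x' i - xf c1 i| < δ := by
      intro i
      have h6 := hx' i
      have h7 : (t.equivFin.symm (t.equivFin ⟨c1, hc1⟩) : (k : ι) → Mon n (e k + 1) → ℝ) = c1 := by
        rw [Equiv.symm_apply_apply]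
      show |x' i - xf c1 i| < δ
      rw [← h7]
      exact h6
    refine hpf c1 (htK c1 hc1) c' x' (fun k m => ?_) (fun i => ?_)
    · have h5 : dist c' c1 < df c1 := hball
      rw [← dist_eq_norm]
      exact lt_of_le_of_lt ((dist_le_pi_dist (c' k) (c1 k) m).trans (dist_le_pi_dist c' c1 k)) h5
    · rw [Real.norm_eq_abs]
      exact lt_of_lt_of_le (hx' i) (hδt c1 hc1)
  · intro c _ c' _ h
    funext k m
    exact congrFun h ⟨k, m⟩

end Pool.Agent.N482.PN
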