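import Pool.Agent.N931.PN.Stm3
import Pool.Agent.H389R2.NS.SumSp

/-!
Project PN, part WALL: the bound for the spectral weight (written by helper482).
-/

set_option autoImplicit false

namespace Pool.Agent.N482.PN.Wall

/-- the sets are of four types -/
theorem split {E : Type} [DecidableEq E] (S SP N L : Finset E) (k : Finset E → ℕ) (J : ℕ)
    (a : Finset E → ℝ) (ha : ∀ T, 0 ≤ a T) (x : ℝ) (hx0 : 0 ≤ x) (hx1 : x ≤ 1)
    (hL : ∀ e ∈ S, e ∉ SP → e ∉ N → e ∈ L) :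
    ∑ T ∈ S.powerset.filter (fun T => T.Nonempty), a T * x ^ T.card ≤
      ∑ T ∈ S.powerset.filter (fun T => ¬ Disjoint T SP), a T +
      ∑ T ∈ S.powerset.filter (fun T => ¬ Disjoint T N), a T * x ^ T.card +
      ∑ T ∈ L.powerset.filter (fun T => T.Nonempty ∧ k T ≤ J), a T +
      ∑ T ∈ L.powerset.filter (fun T => J < k T), a T := by
  have hx : ∀ T : Finset E, a T * x ^ T.card ≤ a T := fun T =>
    mul_le_of_le_one_right (ha T) (pow_le_one₀ hx0 hx1)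
  have hn : ∀ T : Finset E, 0 ≤ a T * x ^ T.card := fun T => mul_nonneg (ha T) (pow_nonneg hx0 _)
  set U := S.powerset.filter (fun T => T.Nonempty) with hU
  rw [← Finset.sum_filter_add_sum_filter_not U (fun T => Disjoint T SP)]
  rw [← Finset.sum_filter_add_sum_filter_not (U.filter fun T => Disjoint T SP) (fun T => Disjoint T N)]
  rw [← Finset.sum_filter_add_sum_filter_not ((U.filter fun T => Disjoint T SP).filter
    fun T => Disjoint T N) (fun T => k T ≤ J)]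
  have e1 : ∑ T ∈ U.filter (fun T => ¬ Disjoint T SP), a T * x ^ T.card ≤
      ∑ T ∈ S.powerset.filter (fun T => ¬ Disjoint T SP), a T := by
    refine (Finset.sum_le_sum fun T _ => hx T).trans (Finset.sum_le_sum_of_subset_of_nonneg ?_
      fun T _ _ => ha T)
    intro T hT
    rw [Finset.mem_filter, hU, Finset.mem_filter] at hT
    exact Finset.mem_filter.2 ⟨hT.1.1, hT.2⟩
  have e2 : ∑ T ∈ (U.filter fun T => Disjoint T SP).filter (fun T => ¬ Disjoint T N),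
      a T * x ^ T.card ≤ ∑ T ∈ S.powerset.filter (fun T => ¬ Disjoint T N), a T * x ^ T.card := by
    refine Finset.sum_le_sum_of_subset_of_nonneg ?_ fun T _ _ => hn T
    intro T hT
    rw [Finset.mem_filter, Finset.mem_filter, hU, Finset.mem_filter] at hT
    exact Finset.mem_filter.2 ⟨hT.1.1.1, hT.2⟩
  have hLp : ∀ T ∈ (U.filter fun T => Disjoint T SP).filter (fun T => Disjoint T N),
      T ∈ L.powerset ∧ T.Nonempty := by
    intro T hT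
    rw [Finset.mem_filter, Finset.mem_filter, hU, Finset.mem_filter, Finset.mem_powerset] at hT
    obtain ⟨⟨⟨h1, h2⟩, h3⟩, h4⟩ := hT
    refine ⟨Finset.mem_powerset.2 fun e he => ?_, h2⟩
    exact hL e (h1 he) (Finset.disjoint_left.1 h3 he) (Finset.disjoint_left.1 h4 he)
  have e3 : ∑ T ∈ ((U.filter fun T => Disjoint T SP).filter fun T => Disjoint T N).filter
      (fun T => k T ≤ J), a T * x ^ T.card ≤
      ∑ T ∈ L.powerset.filter (fun T => T.Nonempty ∧ k T ≤ J), a T := by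
    refine (Finset.sum_le_sum fun T _ => hx T).trans (Finset.sum_le_sum_of_subset_of_nonneg ?_
      fun T _ _ => ha T)
    intro T hT
    have h1 := Finset.mem_filter.1 hT
    have h2 := hLp T h1.1
    exact Finset.mem_filter.2 ⟨h2.1, h2.2, h1.2⟩
  have e4 : ∑ T ∈ ((U.filter fun T => Disjoint T SP).filter fun T => Disjoint T N).filter
      (fun T => ¬ k T ≤ J), a T * x ^ T.card ≤
      ∑ T ∈ L.powerset.filter (fun T => J < k T), a T := by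
    refine (Finset.sum_le_sum fun T _ => hx T).trans (Finset.sum_le_sum_of_subset_of_nonneg ?_
      fun T _ _ => ha T)
    intro T hT
    have h1 := Finset.mem_filter.1 hT
    have h2 := hLp T h1.1
    exact Finset.mem_filter.2 ⟨h2.1, not_le.1 h1.2⟩
  linarith

/-- the choice of the scales -/
theorem num {δ ε : ℝ} (hδ : 0 < δ) (hε : 0 < ε) (hε1 : ε ≤ 1)
    (hL : 1 < ε * δ ^ (-(3 / 4) : ℝ)) :
    ∃ b : ℝ, b = (ε * δ ^ (-(3 / 4) : ℝ)) ^ (-(1 / 150) : ℝ) ∧ 0 < b ∧ b ≤ 1 ∧ δ ≤ b ^ 30 ∧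
      ∃ m w J r : ℕ, 1 ≤ m ∧ (m : ℝ) ≤ 2 * (b ^ 3 / δ) ∧ b ^ 3 / δ ≤ m ∧ 1 ≤ w ∧
        (w : ℝ) ≤ 2 * (b ^ 30 / δ) ∧ b ^ 30 / δ ≤ w ∧ (J : ℝ) * b ^ 4 ≤ 2 ∧ 1 ≤ (J : ℝ) * b ^ 4 ∧
        1 ≤ r ∧ 1 ≤ ε * (r : ℝ) ^ (3 / 4 : ℝ) ∧ ((r : ℝ) / w) ^ (1 / 4 : ℝ) ≤ 2 * b ∧
        (b ^ 60)⁻¹ * ((r : ℝ) / w) ^ (1 / 2 : ℝ) ≤ 2 * b := by
  have hd0 : 0 < δ ^ (-(3 / 4) : ℝ) := Real.rpow_pos_of_pos hδ _
  set Λ : ℝ := ε * δ ^ (-(3 / 4) : ℝ) with hΛ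
  have hΛ0 : 0 < Λ := by linarith
  obtain ⟨β, hβ⟩ : ∃ β : ℝ, β = Λ ^ (1 / 150 : ℝ) := ⟨_, rfl⟩
  have hβ0 : 0 < β := by rw [hβ]; exact Real.rpow_pos_of_pos hΛ0 _
  have hβ1 : 1 ≤ β := by rw [hβ]; exact Real.one_le_rpow hL.le (by norm_num)
  have hβ200 : β ^ 200 = ε ^ (4 / 3 : ℝ) * δ⁻¹ := by
    rw [← Real.rpow_natCast, hβ, ← Real.rpow_mul hΛ0.le, hΛ, Real.mul_rpow hε.le hd0.le,
      ← Real.rpow_mul hδ.le, ← Real.rpow_neg_one δ]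
    norm_num
  have hE0 : 0 < ε ^ (-(4 / 3) : ℝ) := Real.rpow_pos_of_pos hε _
  set E : ℝ := ε ^ (-(4 / 3) : ℝ) with hE
  have hE1 : 1 ≤ E := Real.one_le_rpow_of_pos_of_le_one_of_nonpos hε hε1 (by norm_num)
  have hEδ : E * δ * β ^ 200 = 1 := by
    rw [hβ200, hE, Real.rpow_neg hε.le]
    have : ε ^ (4 / 3 : ℝ) ≠ 0 := (Real.rpow_pos_of_pos hε _).ne'
    field_simp
  obtain ⟨b, hb⟩ : ∃ b : ℝ, b = β⁻¹ := ⟨_, rfl⟩
  have hb0 : 0 < b := by rw [hb]; positivity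
  have hb1 : b ≤ 1 := by rw [hb]; exact inv_le_one_of_one_le₀ hβ1
  have hbβ : b * β = 1 := by rw [hb]; exact inv_mul_cancel₀ hβ0.ne'
  have hpw : ∀ n : ℕ, b ^ n * β ^ n = 1 := fun n => by rw [← mul_pow, hbβ, one_pow]
  -- `E δ = b ^ 200`
  have hEb : E * δ = b ^ 200 := by
    have h1 := hpw 200
    have h2 : β ^ 200 ≠ 0 := by positivity
    apply mul_right_cancel₀ h2
    rw [hEδ, h1]
  have hmono : ∀ {i j : ℕ}, i ≤ j → b ^ j ≤ b ^ i := fun h => pow_le_pow_of_le_one hb0.le hb1 h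
  have hδ200 : δ ≤ b ^ 200 := by
    rw [← hEb]; exact le_mul_of_one_le_left hδ.le hE1
  have hδ30 : δ ≤ b ^ 30 := hδ200.trans (hmono (by norm_num))
  have hδ3 : δ ≤ b ^ 3 := hδ200.trans (hmono (by norm_num))
  have hceil : ∀ y : ℝ, 1 ≤ y → 1 ≤ ⌈y⌉₊ ∧ ((⌈y⌉₊ : ℕ) : ℝ) ≤ 2 * y ∧ y ≤ ((⌈y⌉₊ : ℕ) : ℝ) := by
    intro y hy
    refine ⟨Nat.one_le_ceil_iff.2 (by linarith), ?_, Nat.le_ceil y⟩
    have := Nat.ceil_lt_add_one (show (0 : ℝ) ≤ y by linarith)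
    linarith
  have hw1 : 1 ≤ b ^ 30 / δ := by rwa [le_div_iff₀ hδ, one_mul]
  have hm1 : 1 ≤ b ^ 3 / δ := by rwa [le_div_iff₀ hδ, one_mul]
  have hJ1 : 1 ≤ β ^ 4 := one_le_pow₀ hβ1
  obtain ⟨w0, w2, w3⟩ := hceil _ hw1
  obtain ⟨m0, m2, m3⟩ := hceil _ hm1
  obtain ⟨J0, J2, J3⟩ := hceil _ hJ1
  obtain ⟨r0, r2, r3⟩ := hceil _ hE1
  have hb4 := hpw 4
  have hb4' : 0 < b ^ 4 := by positivity
  have hwpos : (0 : ℝ) < ((⌈b ^ 30 / δ⌉₊ : ℕ) : ℝ) := by exact_mod_cast w0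
  -- the ratio
  have hratio : ((⌈E⌉₊ : ℕ) : ℝ) / ((⌈b ^ 30 / δ⌉₊ : ℕ) : ℝ) ≤ 2 * b ^ 170 := by
    rw [div_le_iff₀ hwpos]
    calc ((⌈E⌉₊ : ℕ) : ℝ) ≤ 2 * E := r2
      _ = 2 * b ^ 170 * (b ^ 30 / δ) := by
          rw [eq_comm, mul_div_assoc', div_eq_iff hδ.ne', mul_assoc 2 E δ, hEb, mul_assoc, ← pow_add]
      _ ≤ _ := mul_le_mul_of_nonneg_left w3 (by positivity)
  have hr0 : (0 : ℝ) ≤ ((⌈E⌉₊ : ℕ) : ℝ) / ((⌈b ^ 30 / δ⌉₊ : ℕ) : ℝ) := by positivity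
  refine ⟨b, ?_, hb0, hb1, hδ30, ⌈b ^ 3 / δ⌉₊, ⌈b ^ 30 / δ⌉₊, ⌈β ^ 4⌉₊, ⌈E⌉₊, m0, m2, m3, w0, w2, w3,
    ?_, ?_, r0, ?_, ?_, ?_⟩
  · rw [hb, hβ, ← Real.rpow_neg hΛ0.le]
  · calc ((⌈β ^ 4⌉₊ : ℕ) : ℝ) * b ^ 4 ≤ 2 * β ^ 4 * b ^ 4 := mul_le_mul_of_nonneg_right J2 hb4'.le
      _ = 2 := by rw [mul_assoc, mul_comm (β ^ 4), hb4, mul_one]
  · calc (1 : ℝ) = β ^ 4 * b ^ 4 := by rw [mul_comm, hb4]
      _ ≤ _ := mul_le_mul_of_nonneg_right J3 hb4'.le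
  · have h1 : E ^ (3 / 4 : ℝ) = ε⁻¹ := by
      rw [hE, ← Real.rpow_mul hε.le, ← Real.rpow_neg_one ε]
      norm_num
    have h2 : ε⁻¹ ≤ ((⌈E⌉₊ : ℕ) : ℝ) ^ (3 / 4 : ℝ) := by
      rw [← h1]
      exact Real.rpow_le_rpow hE0.le r3 (by norm_num)
    calc (1 : ℝ) = ε * ε⁻¹ := (mul_inv_cancel₀ hε.ne').symm
      _ ≤ _ := mul_le_mul_of_nonneg_left h2 hε.le
  · have h1 : ((⌈E⌉₊ : ℕ) : ℝ) / ((⌈b ^ 30 / δ⌉₊ : ℕ) : ℝ) ≤ (2 * b) ^ 4 := by
      refine hratio.trans ?_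
      rw [mul_pow]
      have := hmono (show 4 ≤ 170 by norm_num)
      have h0 : 0 ≤ b ^ 4 := hb4'.le
      nlinarith
    calc _ ≤ ((2 * b) ^ 4) ^ (1 / 4 : ℝ) := Real.rpow_le_rpow hr0 h1 (by norm_num)
      _ = 2 * b := by
          rw [← Real.rpow_natCast, ← Real.rpow_mul (by positivity)]
          norm_num
  · have h1 : ((⌈E⌉₊ : ℕ) : ℝ) / ((⌈b ^ 30 / δ⌉₊ : ℕ) : ℝ) ≤ (2 * b ^ 61) ^ 2 := by
      refine hratio.trans ?_
      rw [mul_pow, ← pow_mul]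
      have := hmono (show 61 * 2 ≤ 170 by norm_num)
      have h0 : 0 ≤ b ^ (61 * 2) := by positivity
      nlinarith
    have h2 : (((⌈E⌉₊ : ℕ) : ℝ) / ((⌈b ^ 30 / δ⌉₊ : ℕ) : ℝ)) ^ (1 / 2 : ℝ) ≤ 2 * b ^ 61 :=
      calc _ ≤ ((2 * b ^ 61) ^ 2) ^ (1 / 2 : ℝ) := Real.rpow_le_rpow hr0 h1 (by norm_num)
        _ = 2 * b ^ 61 := by
            rw [← Real.rpow_natCast, ← Real.rpow_mul (by positivity)]
            norm_num
    calc (b ^ 60)⁻¹ * _ ≤ (b ^ 60)⁻¹ * (2 * b ^ 61) := mul_le_mul_of_nonneg_left h2 (by positivity)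
      _ = 2 * b := by
          have : b ^ 60 ≠ 0 := by positivity
          field_simp

section

open H974 H12S H389NS H984N H984P H342P Finset
open Pool.Agent.N116.EW
open Pool.Agent.N931.PN
open H342L (cdist Curve)

theorem wt_le_one (S : Finset Edg) (h : Finset Edg → ℝ) (hh : ∀ F, |h F| ≤ 1) (x : ℝ)
    (hx0 : 0 ≤ x) (hx1 : x ≤ 1) : WT S h x ≤ 1 := by
  unfold WT
  calc ∑ T ∈ S.powerset.filter (fun T => T.Nonempty), (wal S h T) ^ 2 * x ^ T.card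
      ≤ ∑ T ∈ S.powerset.filter (fun T => T.Nonempty), (wal S h T) ^ 2 :=
        Finset.sum_le_sum fun T _ => mul_le_of_le_one_right (sq_nonneg _) (pow_le_one₀ hx0 hx1)
    _ ≤ ∑ T ∈ S.powerset, (wal S h T) ^ 2 :=
        Finset.sum_le_sum_of_subset_of_nonneg (Finset.filter_subset _ _) fun _ _ _ => sq_nonneg _
    _ = Ex hp S (fun F => (h F) ^ 2) := SumSpAux.parseval S h
    _ ≤ Ex hp S (fun _ => (1 : ℝ)) := by
        refine Ex_mono (fun e => by unfold hp; norm_num) fun F _ => ?_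
        have := hh F
        rw [← sq_abs]
        exact pow_le_one₀ (abs_nonneg _) this
    _ = 1 := Ex_const _ _ _

/-- PN/WALL -/
theorem main : S_WSP → S_WFEW → S_WMANY → S_WBULK → S_WALL := by
  intro h1 h2 h3 h4 R
  obtain ⟨C1, c1, d1, hC1, hc1, hd1, H1⟩ := h1 R
  obtain ⟨C2, d2, hC2, hd2, H2⟩ := h2 R
  obtain ⟨C3, d3, hC3, hd3, H3⟩ := h3 R
  obtain ⟨C4, d4, hC4, hd4, H4⟩ := h4 R
  obtain ⟨c, hc⟩ : ∃ c : ℝ, c = min c1 1 := ⟨_, rfl⟩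
  have hc0 : 0 < c := by rw [hc]; exact lt_min hc1 one_pos
  have hcc1 : c ≤ c1 := by rw [hc]; exact min_le_left _ _
  have hcc2 : c ≤ 1 := by rw [hc]; exact min_le_right _ _
  refine ⟨1 + C1 + C2 + C3 + 4 * C4, c / 150, min (min d1 d2) (min d3 d4), by positivity,
    by positivity, lt_min (lt_min hd1 hd2) (lt_min hd3 hd4), ?_⟩
  intro δ ε hδ hδ0 hε hε1 f hLp
  have hδ1 : δ ≤ d1 := hδ0.trans ((min_le_left _ _).trans (min_le_left _ _))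
  have hδ2 : δ ≤ d2 := hδ0.trans ((min_le_left _ _).trans (min_le_right _ _))
  have hδ3 : δ ≤ d3 := hδ0.trans ((min_le_right _ _).trans (min_le_left _ _))
  have hδ4 : δ ≤ d4 := hδ0.trans ((min_le_right _ _).trans (min_le_right _ _))
  have hx0 : 0 ≤ 1 - ε := by linarith
  have hx1 : 1 - ε ≤ 1 := by linarith
  have hL0 : 0 < ε * δ ^ (-(3 / 4) : ℝ) := mul_pos hε (Real.rpow_pos_of_pos hδ _)
  by_cases hL : ε * δ ^ (-(3 / 4) : ℝ) ≤ 1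
  · have e1 : WT (R.dm δ).edges (hf R δ f) (1 - ε) ≤ 1 :=
      wt_le_one _ _ (fun F => hLp.2 _) _ hx0 hx1
    have e2 : 1 ≤ (ε * δ ^ (-(3 / 4) : ℝ)) ^ (-(c / 150)) :=
      Real.one_le_rpow_of_pos_of_le_one_of_nonpos hL0 hL (by linarith)
    refine e1.trans (e2.trans (le_mul_of_one_le_left (by linarith) (by linarith)))
  · rw [not_le] at hL
    obtain ⟨b, hb, hb0, hb1, hδ30, m, w, J, r, m0, m2, m3, w0, w2, w3, J2, J3, r0, r1, r2, r3⟩ :=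
      num hδ hε hε1 hL
    have hs := split (R.dm δ).edges (Sp (R.dm δ) m)
      ((R.dm δ).edges.filter fun e => (w : ℤ) ≤ (R.dm δ).bd (src e))
      ((R.dm δ).edges.filter fun e => (R.dm δ).bd (src e) < w ∧ (m : ℤ) ≤ qd (R.dm δ) (src e))
      (fun T => (T.image (Pool.Agent.N931.PN.cell w)).card) J (fun T => (wal (R.dm δ).edges (hf R δ f) T) ^ 2)
      (fun _ => sq_nonneg _) (1 - ε) hx0 hx1 (by
        intro e he hS hN
        rw [Finset.mem_filter]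
        refine ⟨he, ?_, ?_⟩
        · by_contra hcon
          exact hN (Finset.mem_filter.2 ⟨he, not_lt.1 hcon⟩)
        · by_contra hcon
          refine hS ?_
          unfold Sp
          exact Finset.mem_filter.2 ⟨he, not_le.1 hcon⟩)
    have g1 := H1 δ b hδ hδ1 hb0 hb1 hδ30 f hLp m m0 m2
    have g2 := H2 δ b hδ hδ2 hb0 hb1 hδ30 f hLp m w J w0 w2 m3 J2
      ((R.dm δ).edges.filter fun e => (R.dm δ).bd (src e) < w ∧ (m : ℤ) ≤ qd (R.dm δ) (src e))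
      (Finset.filter_subset _ _) (fun e he => (Finset.mem_filter.1 he).2)
    have g3 := H3 δ b hδ hδ3 hb0 hb1 hδ30 f hLp m w J w3 w2 m3 m2 J3
      ((R.dm δ).edges.filter fun e => (R.dm δ).bd (src e) < w ∧ (m : ℤ) ≤ qd (R.dm δ) (src e))
      (Finset.filter_subset _ _) (fun e he => (Finset.mem_filter.1 he).2)
    have g4 := H4 δ b (1 - ε) hδ hδ4 hb0 hb1 hδ30 hx0 (by linarith) f hLp w r w3 w2 r0
      (by rw [sub_sub_cancel]; exact r1)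
      ((R.dm δ).edges.filter fun e => (w : ℤ) ≤ (R.dm δ).bd (src e))
      (Finset.filter_subset _ _) (fun e he => (Finset.mem_filter.1 he).2)
    have k1 : b ^ c1 ≤ b ^ c := Real.rpow_le_rpow_of_exponent_ge hb0 hb1 hcc1
    have k2 : b ≤ b ^ c := by
      have := Real.rpow_le_rpow_of_exponent_ge hb0 hb1 hcc2
      rwa [Real.rpow_one] at this
    have k3 : b ^ c = (ε * δ ^ (-(3 / 4) : ℝ)) ^ (-(c / 150)) := by
      rw [hb, ← Real.rpow_mul hL0.le]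
      congr 1
      ring
    have hbc0 : 0 < b ^ c := Real.rpow_pos_of_pos hb0 _
    rw [← k3]
    have t1 : C1 * b ^ c1 ≤ C1 * b ^ c := mul_le_mul_of_nonneg_left k1 hC1.le
    have t2 : C2 * b ≤ C2 * b ^ c := mul_le_mul_of_nonneg_left k2 hC2.le
    have t3 : C3 * b ≤ C3 * b ^ c := mul_le_mul_of_nonneg_left k2 hC3.le
    have t4 : C4 * (((r : ℝ) / w) ^ (1 / 4 : ℝ) + (b ^ 60)⁻¹ * ((r : ℝ) / w) ^ (1 / 2 : ℝ)) ≤
        C4 * (4 * b ^ c) := mul_le_mul_of_nonneg_left (by linarith) hC4.le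
    unfold WT
    calc _ ≤ _ := hs
      _ ≤ C1 * b ^ c + C4 * (4 * b ^ c) + C2 * b ^ c + C3 * b ^ c :=
          add_le_add (add_le_add (add_le_add (g1.trans t1) (g4.trans t4)) (g2.trans t2)) (g3.trans t3)
      _ ≤ (1 + C1 + C2 + C3 + 4 * C4) * b ^ c := by nlinarith

end

end Pool.Agent.N482.PN.Wall
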